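import Mathlib

set_option autoImplicit false
open Matrix

namespace Pool.Agent.H.MP_4b13b5_an

lemma cubic (b0 b1 b2 : ℝ) (h1 : 0 < 1 + b0 + b1 + b2) (h2 : 0 < 1 - b0 + b1 - b2)
    (h4 : b1 - b0 * b2 < 1 - b2 ^ 2) (h5 : -1 ≤ b0) (h5' : b0 ≤ 1) (h6 : -1 ≤ b1)
    (z : ℂ) (hz : 1 ≤ ‖z‖) : z ^ 3 + ((b0 : ℂ) * z ^ 2 + (b1 : ℂ) * z + (b2 : ℂ)) ≠ 0 := by
  intro h
  have hn : 1 ≤ z.re ^ 2 + z.im ^ 2 := by
    have h1 : 1 ≤ ‖z‖ ^ 2 := by nlinarith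
    rw [Complex.sq_norm, Complex.normSq_apply] at h1
    nlinarith
  have hre := congrArg Complex.re h
  have him := congrArg Complex.im h
  simp [pow_succ] at hre him
  set x := z.re
  set y := z.im
  by_cases hy : y = 0
  · rw [hy] at hre hn
    rcases le_total 0 x with hx | hx
    · have hx1 : 1 ≤ x := by nlinarith
      obtain ⟨s, hs⟩ : ∃ s, x = 1 + s := ⟨x - 1, by ring⟩
      have hs0 : 0 ≤ s := by linarith
      rw [hs] at hre
      nlinarith [mul_nonneg hs0 (show 0 ≤ 3 + 2 * b0 + b1 by linarith),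
        mul_nonneg (mul_nonneg hs0 hs0) (show 0 ≤ 3 + b0 by linarith),
        mul_nonneg (mul_nonneg hs0 hs0) hs0]
    · have hx1 : x ≤ -1 := by nlinarith
      obtain ⟨s, hs⟩ : ∃ s, x = -1 - s := ⟨-1 - x, by ring⟩
      have hs0 : 0 ≤ s := by linarith
      rw [hs] at hre
      nlinarith [mul_nonneg hs0 (show 0 ≤ 3 - 2 * b0 + b1 by linarith),
        mul_nonneg (mul_nonneg hs0 hs0) (show 0 ≤ 3 - b0 by linarith),
        mul_nonneg (mul_nonneg hs0 hs0) hs0]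
  · have e1 : b1 = y ^ 2 - 3 * x ^ 2 - 2 * b0 * x := by
      have : y * (b1 - (y ^ 2 - 3 * x ^ 2 - 2 * b0 * x)) = 0 := by linarith
      rcases mul_eq_zero.1 this with h | h
      · exact absurd h hy
      · linarith
    have e2 : b2 = (x ^ 2 + y ^ 2) * (b0 + 2 * x) := by
      rw [e1] at hre; linarith
    have e3 : 1 - b2 ^ 2 - (b1 - b0 * b2) = -((x ^ 2 + y ^ 2 - 1) *
        ((1 + x * (b0 + 2 * x)) ^ 2 + (b0 + 2 * x) ^ 2 * y ^ 2)) := by
      rw [e2, e1]; ring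
    have : 0 ≤ (x ^ 2 + y ^ 2 - 1) *
        ((1 + x * (b0 + 2 * x)) ^ 2 + (b0 + 2 * x) ^ 2 * y ^ 2) :=
      mul_nonneg (by linarith) (by positivity)
    linarith

def Stab (b : Fin 3 → ℝ) : Prop :=
  ∀ z : ℂ, 1 ≤ ‖z‖ → z ^ 3 + ∑ j : Fin 3, ((b j : ℝ) : ℂ) * z ^ (3 - (j.val + 1)) ≠ 0

lemma stab_iff (b : Fin 3 → ℝ) : Stab b ↔
    ∀ z : ℂ, 1 ≤ ‖z‖ → z ^ 3 + ((b 0 : ℂ) * z ^ 2 + (b 1 : ℂ) * z + (b 2 : ℂ)) ≠ 0 := by
  unfold Stab
  simp [Fin.sum_univ_three]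

def Near (a b : Fin 3 → ℝ) : Prop :=
  0 ≤ (a 0 + a 2 - (b 0 + b 2)) * (b 0 + b 2) / 2 + (a 1 - b 1) * b 1 ∧
  0 ≤ (a 2 - a 0 - (b 2 - b 0)) * (b 2 - b 0)

lemma split (R : Matrix (Fin 3) (Fin 3) ℝ) (hR : R.PosDef) (a : Fin 3 → ℝ) :
    (1 + R)⁻¹ *ᵥ a + R *ᵥ ((1 + R)⁻¹ *ᵥ a) = a := by
  have hp : (1 + R).PosDef := Matrix.PosDef.one.add hR
  have hu : IsUnit (1 + R).det := (Matrix.isUnit_iff_isUnit_det _).1 hp.isUnit
  have : (1 + R) *ᵥ ((1 + R)⁻¹ *ᵥ a) = a := by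
    rw [Matrix.mulVec_mulVec, Matrix.mul_nonsing_inv _ hu, Matrix.one_mulVec]
  rw [Matrix.add_mulVec, Matrix.one_mulVec] at this
  exact this

lemma near (R : Matrix (Fin 3) (Fin 3) ℝ) (hR : R.PosDef)
    (hT : ∃ r : ℕ → ℝ, ∀ i j : Fin 3, R i j = r (Int.natAbs ((i.val : ℤ) - (j.val : ℤ))))
    (a : Fin 3 → ℝ) : Near a ((R * (1 + R)⁻¹) *ᵥ a) := by
  obtain ⟨r, hr⟩ := hT
  rw [← Matrix.mulVec_mulVec]
  have hs := split R hR a
  set x := (1 + R)⁻¹ *ᵥ a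
  have h00 : R 0 0 = r 0 := hr 0 0
  have h01 : R 0 1 = r 1 := hr 0 1
  have h02 : R 0 2 = r 2 := hr 0 2
  have h10 : R 1 0 = r 1 := hr 1 0
  have h11 : R 1 1 = r 0 := hr 1 1
  have h12 : R 1 2 = r 1 := hr 1 2
  have h20 : R 2 0 = r 2 := hr 2 0
  have h21 : R 2 1 = r 1 := hr 2 1
  have h22 : R 2 2 = r 0 := hr 2 2
  have e0 := congrFun hs 0
  have e1 := congrFun hs 1
  have e2 := congrFun hs 2
  have p1 := hR.posSemidef.dotProduct_mulVec_nonneg ![(x 0 + x 2) / 2, x 1, (x 0 + x 2) / 2]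
  have p2 := hR.posSemidef.dotProduct_mulVec_nonneg ![x 0 - x 2, 0, x 2 - x 0]
  unfold Near
  rw [← e0, ← e1, ← e2]
  simp [Matrix.mulVec, dotProduct, Fin.sum_univ_three, h00, h01, h02, h10, h11, h12, h20, h21,
    h22] at p1 p2 ⊢
  constructor
  · nlinarith
  · nlinarith

noncomputable def u : Fin 3 → ℝ :=
  ![746774529 / 6143840000, 27143251 / 100000000, 13034352413 / 15359600000]
noncomputable def v : Fin 3 → ℝ := ![-707 / 1000, 0, 707 / 1000]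

lemma stab_u (b : Fin 3 → ℝ) (h : Near u b) : Stab b := by
  rw [stab_iff]
  obtain ⟨g1, g2⟩ := h
  simp [u] at g1 g2
  obtain ⟨P, hP⟩ : ∃ P, P = b 0 + b 2 := ⟨_, rfl⟩
  obtain ⟨D, hD⟩ : ∃ D, D = b 2 - b 0 := ⟨_, rfl⟩
  have k0 : b 0 = (P - D) / 2 := by linarith
  have k2 : b 2 = (P + D) / 2 := by linarith
  rw [← hP] at g1
  rw [← hD] at g2
  set c := b 1
  have d0 : 0 ≤ D := by nlinarith
  have d1 : D ≤ 7271 / 10000 := by nlinarith
  have q1 : c + 7271 / 20000 * P ≤ 73 / 100 := by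
    nlinarith [sq_nonneg (P - 7236 / 10000), sq_nonneg (c - 4638 / 10000)]
  have q2 : c ≤ 51 / 100 := by
    nlinarith [sq_nonneg (P - 485 / 1000), sq_nonneg (c - 5046 / 10000)]
  have q3 : P - c ≤ 995 / 1000 := by
    nlinarith [sq_nonneg (P - 911 / 1000), sq_nonneg (c + 773 / 10000)]
  have q4 : -P - c ≤ 1 / 2 := by
    nlinarith [sq_nonneg (P - 59 / 1000), sq_nonneg (c + 773 / 10000)]
  have q5 : P ≤ 11 / 10 := by
    nlinarith [sq_nonneg (P - 1007 / 1000), sq_nonneg (c - 1357 / 10000)]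
  have q6 : -P ≤ 1 / 2 := by
    nlinarith [sq_nonneg (P + 37 / 1000), sq_nonneg (c - 1357 / 10000)]
  have q7 : -c ≤ 1 / 2 := by
    nlinarith [sq_nonneg (P - 485 / 1000), sq_nonneg (c + 233 / 1000)]
  intro z hz
  refine cubic _ _ _ (by linarith) (by linarith) ?_ (by linarith) (by linarith) (by linarith) z hz
  rw [k0, k2]
  nlinarith [mul_nonneg d0 (sub_nonneg.2 q1), mul_nonneg (sub_nonneg.2 d1) (sub_nonneg.2 q2),
    mul_nonneg d0 (sub_nonneg.2 d1)]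

lemma stab_v (b : Fin 3 → ℝ) (h : Near v b) : Stab b := by
  rw [stab_iff]
  obtain ⟨g1, g2⟩ := h
  simp [v] at g1 g2
  obtain ⟨P, hP⟩ : ∃ P, P = b 0 + b 2 := ⟨_, rfl⟩
  obtain ⟨D, hD⟩ : ∃ D, D = b 2 - b 0 := ⟨_, rfl⟩
  have k0 : b 0 = (P - D) / 2 := by linarith
  have k2 : b 2 = (P + D) / 2 := by linarith
  have hP0 : P = 0 := by nlinarith [sq_nonneg P, sq_nonneg (b 1)]
  have hc0 : b 1 = 0 := by nlinarith [sq_nonneg P, sq_nonneg (b 1)]
  rw [← hD] at g2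
  have d0 : 0 ≤ D := by nlinarith
  have d1 : D ≤ 1414 / 1000 := by nlinarith
  intro z hz
  refine cubic _ _ _ (by linarith) (by linarith) ?_ (by linarith) (by linarith) (by linarith) z hz
  rw [k0, k2, hP0, hc0]
  nlinarith

lemma near_self (a : Fin 3 → ℝ) : Near a a := by
  unfold Near; simp

noncomputable def r0 : ℕ → ℝ := fun k => if k = 0 then 10000 else if k = 1 then 9200 else 692808 / 100
noncomputable def R0 : Matrix (Fin 3) (Fin 3) ℝ :=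
  !![10000, 9200, 692808 / 100; 9200, 10000, 9200; 692808 / 100, 9200, 10000]

lemma R0_toep : ∀ i j : Fin 3, R0 i j = r0 (Int.natAbs ((i.val : ℤ) - (j.val : ℤ))) := by
  intro i j
  fin_cases i <;> fin_cases j <;> simp [R0, r0]

lemma R0_pd : R0.PosDef := by
  refine Matrix.PosDef.of_dotProduct_mulVec_pos ?_ ?_
  · ext i j
    fin_cases i <;> fin_cases j <;> simp [R0]
  · intro x hx
    simp [R0, Matrix.mulVec, dotProduct, Fin.sum_univ_three]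
    have e : x 0 * (10000 * x 0 + 9200 * x 1 + 692808 / 100 * x 2) +
        x 1 * (9200 * x 0 + 10000 * x 1 + 9200 * x 2) +
        x 2 * (692808 / 100 * x 0 + 9200 * x 1 + 10000 * x 2) =
        153596 / 100 * (x 0 - x 2) ^ 2 + 4 / 100 * (x 0 + x 2) ^ 2 +
          10000 * (x 1 + 92 / 100 * (x 0 + x 2)) ^ 2 := by ring
    rw [e]
    by_contra hn
    push Not at hn
    have a1 := sq_nonneg (x 0 - x 2)
    have a2 := sq_nonneg (x 0 + x 2)
    have a3 := sq_nonneg (x 1 + 92 / 100 * (x 0 + x 2))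
    have b1 : x 0 - x 2 = 0 := by
      have : (x 0 - x 2) ^ 2 = 0 := by linarith
      exact pow_eq_zero_iff (two_ne_zero) |>.1 this
    have b2 : x 0 + x 2 = 0 := by
      have : (x 0 + x 2) ^ 2 = 0 := by linarith
      exact pow_eq_zero_iff (two_ne_zero) |>.1 this
    have b3 : x 1 + 92 / 100 * (x 0 + x 2) = 0 := by
      have : (x 1 + 92 / 100 * (x 0 + x 2)) ^ 2 = 0 := by linarith
      exact pow_eq_zero_iff (two_ne_zero) |>.1 this
    apply hx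
    funext i
    fin_cases i <;> simp <;> linarith

noncomputable def x0 : Fin 3 → ℝ :=
  ![519452449 / 12287680000, -15616749 / 200000000, 8183331 / 191995000]
noncomputable def b0 : Fin 3 → ℝ := ![-67 / 200, 1069 / 5000, 588147 / 800000]

lemma image_mid : (R0 * (1 + R0)⁻¹) *ᵥ ((1 / 2 : ℝ) • u + (1 / 2 : ℝ) • v) = b0 := by
  have hp : (1 + R0).PosDef := Matrix.PosDef.one.add R0_pd
  have hu : IsUnit (1 + R0).det := (Matrix.isUnit_iff_isUnit_det _).1 hp.isUnit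
  have h1 : R0 *ᵥ x0 = b0 := by
    funext i
    fin_cases i <;> simp [R0, x0, b0, Matrix.mulVec, dotProduct, Fin.sum_univ_three] <;> norm_num
  have h2 : (1 / 2 : ℝ) • u + (1 / 2 : ℝ) • v = (1 + R0) *ᵥ x0 := by
    rw [Matrix.add_mulVec, Matrix.one_mulVec, h1]
    funext i
    fin_cases i <;> simp [u, v, x0, b0] <;> norm_num
  rw [h2, Matrix.mulVec_mulVec, Matrix.mul_assoc, Matrix.nonsing_inv_mul _ hu, Matrix.mul_one, h1]

lemma not_stab : ¬ Stab b0 := by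
  rw [stab_iff]
  intro h
  refine h ⟨107 / 200, 169 / 200⟩ ?_ ?_
  · have : (1 : ℝ) ≤ ‖(⟨107 / 200, 169 / 200⟩ : ℂ)‖ ^ 2 := by
      rw [Complex.sq_norm, Complex.normSq_apply]; norm_num
    nlinarith [norm_nonneg (⟨107 / 200, 169 / 200⟩ : ℂ)]
  · apply Complex.ext <;> simp [b0, pow_succ] <;> norm_num

end Pool.Agent.H.MP_4b13b5_an
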